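import Pool.Agent.N837.LP.GenM

set_option autoImplicit false

/-!
# All of `n, 2 n, ..., J n` lie in long prime gaps for a positive proportion of the `n`

For all `J`, `A ≥ 1` and `0 < η ≤ 1`, for every large `X`, for a positive proportion of the `n` (of any
parity) in `(X, X + X ^ η]` there is no prime `m` with `|m - j n| ≤ A log X` for any `1 ≤ j ≤ J`.
-/

namespace Pool.Agent.Results.MP_7ba156_nt.GapsAroundMultiples

theorem result : ∃ C : ℝ, 0 < C ∧ ∀ (J : ℕ) (A η : ℝ), 1 ≤ J → 1 ≤ A → 0 < η → η ≤ 1 →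
    ∃ X₀ : ℝ, ∀ X : ℝ, X₀ ≤ X → ∀ r : ℕ,
    X ^ η * Real.exp (-Real.exp (C * J ^ 2 * A / η)) ≤
      (({n : ℕ | X < n ∧ (n : ℝ) ≤ X + X ^ η ∧ n % 2 = r % 2 ∧
        ∀ j : ℕ, 1 ≤ j → j ≤ J → ∀ m : ℕ, |(m : ℝ) - j * n| ≤ A * Real.log X →
          ¬ m.Prime}).ncard : ℝ) := by
  classical
  obtain ⟨C, hC, h⟩ := Pool.Agent.N837.LP.genM 1 one_pos
  refine ⟨3 * C, by positivity, fun J A η hJ hA hη hη1 => ?_⟩
  have hJR : (1:ℝ) ≤ J := by exact_mod_cast hJ
  obtain ⟨X₀, hX₀⟩ := h J (3 * J * A) η hJ (by nlinarith) hη hη1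
  have hev : ∀ᶠ X : ℝ in Filter.atTop, A * Real.log X ≤ X / 4 := by
    have h0 := Real.isLittleO_log_id_atTop.bound (show (0:ℝ) < 1 / (4 * A) by positivity)
    filter_upwards [h0, Filter.eventually_ge_atTop 1] with X hX hX1
    rw [Real.norm_of_nonneg (Real.log_nonneg hX1), id, Real.norm_of_nonneg (by linarith),
      one_div, ← div_eq_inv_mul, le_div_iff₀ (by positivity)] at hX
    linarith
  obtain ⟨X₁, hX₁⟩ := Filter.eventually_atTop.1 hev
  refine ⟨max X₀ (max (16 * J) X₁), fun X hX r => ?_⟩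
  have hXX₀ : X₀ ≤ X := (le_max_left _ _).trans hX
  have hXJ : 16 * (J : ℝ) ≤ X := (le_max_left _ _).trans ((le_max_right _ _).trans hX)
  have hXX₁ : X₁ ≤ X := (le_max_right _ _).trans ((le_max_right _ _).trans hX)
  have g1 := hX₁ X hXX₁
  have hX0 : 0 < X := by linarith
  have hL1 : 1 ≤ Real.log X := by
    rw [Real.le_log_iff_exp_le hX0]
    have := Real.exp_one_lt_d9
    linarith
  have hAL : 1 ≤ A * Real.log X := by nlinarith
  set L : ℤ := ⌊A * Real.log X⌋ with hL
  have hL0 : (0:ℤ) ≤ L := Int.floor_nonneg.2 (by linarith)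
  have hLle : (L : ℝ) ≤ A * Real.log X := Int.floor_le _
  set F : Finset (ℕ × ℤ) := ((Finset.Icc 1 J) ×ˢ (Finset.Icc (-L) L)).filter
    (fun s => IsCoprime (s.1 : ℤ) s.2) with hF
  have hFc : (F.card : ℝ) ≤ 3 * J * A * Real.log X := by
    have e1 : F.card ≤ J * (2 * L + 1).toNat := by
      refine (Finset.card_filter_le _ _).trans ?_
      rw [Finset.card_product, Nat.card_Icc, Int.card_Icc]
      apply le_of_eq
      congr 1
      congr 1
      ring
    have e2 : (((2 * L + 1).toNat : ℕ) : ℝ) = ((2 * L + 1 : ℤ) : ℝ) := by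
      exact_mod_cast Int.toNat_of_nonneg (by linarith : (0:ℤ) ≤ 2 * L + 1)
    have e3 : (F.card : ℝ) ≤ J * (((2 * L + 1).toNat : ℕ) : ℝ) := by exact_mod_cast e1
    rw [e2] at e3
    push_cast at e3
    have e4 : (J : ℝ) * (2 * L + 1) ≤ J * (3 * (A * Real.log X)) :=
      mul_le_mul_of_nonneg_left (by linarith) (by linarith)
    linarith
  have h1 := hX₀ X hXX₀ F hFc
    (by
      intro s hs
      rw [hF, Finset.mem_filter, Finset.mem_product, Finset.mem_Icc, Finset.mem_Icc] at hs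
      refine ⟨hs.1.1.1, hs.1.1.2, hs.2, ?_⟩
      rw [abs_le]
      have e1 : ((-L : ℤ) : ℝ) ≤ s.2 := by exact_mod_cast hs.1.2.1
      have e2 : (s.2 : ℝ) ≤ L := by exact_mod_cast hs.1.2.2
      push_cast at e1
      constructor <;> linarith) r
  have h2 : C * J * (3 * J * A) / η = 3 * C * J ^ 2 * A / η := by ring
  rw [h2] at h1
  refine h1.trans (Nat.cast_le.2 (Set.ncard_le_ncard ?_ ?_))
  · intro n hn
    obtain ⟨q1, q2, q3, q4⟩ := hn
    refine ⟨q1, q2, by omega, fun j hj1 hjJ m hm hmp => ?_⟩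
    have hjR : (1:ℝ) ≤ j := by exact_mod_cast hj1
    have hjJR : (j:ℝ) ≤ J := by exact_mod_cast hjJ
    set i : ℤ := (m : ℤ) - j * n with hi
    have hiR : (i : ℝ) = (m : ℝ) - j * n := by
      rw [hi]
      push_cast
      ring
    rw [← hiR] at hm
    have hiL : |i| ≤ L := by
      rw [hL, Int.le_floor]
      push_cast
      exact hm
    have hmi : (m : ℤ) = j * n + i := by rw [hi]; ring
    have hmX : X / 2 < (m : ℝ) := by
      have e1 := (abs_le.1 hm).1
      have e2 : (n : ℝ) ≤ j * n := by nlinarith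
      linarith
    by_cases hcop : IsCoprime (j : ℤ) i
    · obtain ⟨l, p1, p2, p3, p4⟩ := q4 (j, i) (by
        rw [hF, Finset.mem_filter, Finset.mem_product, Finset.mem_Icc, Finset.mem_Icc]
        exact ⟨⟨⟨hj1, hjJ⟩, abs_le.1 hiL⟩, hcop⟩)
      simp only at p3 p4
      rw [← hmi] at p3 p4
      have p5 : l ∣ m := by exact_mod_cast p3
      have p6 : l < m := by exact_mod_cast p4
      rcases (Nat.dvd_prime hmp).1 p5 with e4 | e4
      · exact p1.one_lt.ne' e4
      · omega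
    · rw [Int.isCoprime_iff_gcd_eq_one] at hcop
      set g : ℕ := Int.gcd (j : ℤ) i with hg
      have g2 : (g : ℤ) ∣ j := Int.gcd_dvd_left _ _
      have g3 : (g : ℤ) ∣ i := Int.gcd_dvd_right _ _
      have g4 : (g : ℤ) ∣ m := by
        rw [hmi]
        exact (g2.mul_right _).add g3
      have g5 : g ∣ m := by exact_mod_cast g4
      have g6 : g ∣ j := by exact_mod_cast g2
      have g7 : g ≤ J := (Nat.le_of_dvd (by omega) g6).trans hjJ
      rcases (Nat.dvd_prime hmp).1 g5 with e4 | e4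
      · exact hcop e4
      · have : (m : ℝ) ≤ J := by
          rw [← e4]
          exact_mod_cast g7
        linarith
  · apply (Set.finite_Iic ⌊X + X ^ η⌋₊).subset
    intro a ha
    obtain ⟨_, h2, _⟩ := ha
    rw [Set.mem_Iic]
    exact Nat.le_floor h2

end Pool.Agent.Results.MP_7ba156_nt.GapsAroundMultiples
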