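import Mathlib
import Pool.Agent.N740.HK.Trials
import Pool.Agent.N740.HK.Sch
import Pool.Agent.N740.HK.Tgt
import Pool.Agent.N740.HK.Shk
import Pool.Agent.N957.SQ.Upper
import Pool.Agent.N957.SQ.Lower
import Pool.Agent.N957.SQ.Det

/-!
# Large gaps in all sequential random models of the primes: the exact exponents of their numbers

The integers are decided one after the other and the conditional probability of choosing `n + 1`,
given the decisions up to `n`, is asymptotic to `1 / log n`, almost surely.  Nothing else is assumed: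
no independence and no rate of convergence.  The independent model of Cramér and the random sieve of
Hawkins are examples.

In every such model, almost surely, the number of gaps `g > lam log² p` after a chosen `p ≤ x` is
`x ^ (1 - lam + o(1))` for all `0 ≤ lam ≤ 1` at once, it is bounded for all `lam > 1`, and the maximal gap
`G(x)` is asymptotic to `log² x`.
-/

set_option autoImplicit false

open MeasureTheory Filter Set ProbabilityTheory
open scoped Topology

namespace Pool.Agent.Results.MP_7ba156_nt.SequentialModels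

variable {Ω : Type}

/-- `A n` is the event that `n` is chosen.  The events are adapted to the filtration `ℱ` and the
conditional probability of `A (n + 1)` given `ℱ n`, times `log n`, tends to `1` almost surely. -/
def SequentialModel [m : MeasurableSpace Ω] (μ : Measure Ω) (ℱ : Filtration ℕ m) (A : ℕ → Set Ω) : Prop :=
  (∀ n, MeasurableSet[ℱ n] (A n)) ∧
  ∀ᵐ ω ∂μ, Tendsto (fun n : ℕ => (μ[(A (n + 1)).indicator (fun _ => (1 : ℝ)) | ℱ n]) ω * Real.log n) atTop (𝓝 1)

/-- The model of Cramér: independent events, `n` is chosen with probability `1 / log n` for `n ≥ 3`. -/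
def CramerModel [MeasurableSpace Ω] (μ : Measure Ω) (A : ℕ → Set Ω) : Prop :=
  (∀ n, MeasurableSet (A n)) ∧ iIndepSet A μ ∧ ∀ n : ℕ, 3 ≤ n → μ (A n) = ENNReal.ofReal (1 / Real.log n)

open Classical in
/-- The random sieve of Hawkins: `2` is chosen, and given the decisions up to `n ≥ 2` the number
`n + 1` is chosen with probability `∏ (1 - 1 / h)`, the product over the chosen `2 ≤ h ≤ n`. -/
def HawkinsSieve [m : MeasurableSpace Ω] (μ : Measure Ω) (ℱ : Filtration ℕ m) (A : ℕ → Set Ω) : Prop :=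
  (∀ n, MeasurableSet[ℱ n] (A n)) ∧ A 2 = univ ∧
  ∀ n, 2 ≤ n → μ[(A (n + 1)).indicator (fun _ => (1 : ℝ)) | ℱ n] =ᵐ[μ]
    fun ω => ∏ h ∈ Finset.Icc 2 n, if ω ∈ A h then 1 - 1 / (h : ℝ) else 1

/-- The members of `S` in increasing order: `nth S 0 < nth S 1 < ...`. -/
noncomputable def nth (S : Set ℕ) (n : ℕ) : ℕ := Nat.nth (· ∈ S) n

/-- The number of `n` with `p_n ≤ x` and `p_(n+1) - p_n > lam * log² p_n`, where `p_n = nth S n`. -/
noncomputable def largeGaps (S : Set ℕ) (lam : ℝ) (x : ℕ) : ℕ :=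
  {n : ℕ | nth S n ≤ x ∧ lam * Real.log (nth S n) ^ 2 < (nth S (n + 1) : ℝ) - nth S n}.ncard

/-- The maximal gap `G(x) = max {p_(n+1) - p_n : p_n ≤ x}`. -/
noncomputable def maxGap (S : Set ℕ) (x : ℕ) : ℕ :=
  sSup {g | ∃ n, nth S n ≤ x ∧ g = nth S (n + 1) - nth S n}

open Pool.Agent.N740.HK Pool.Agent.R528.RM

lemma prod_inv (A : ℕ → Set Ω) (n : ℕ) (ω : Ω) [DecidablePred fun h => ω ∈ A h] :
    (∏ h ∈ Finset.Icc 2 n, if ω ∈ A h then 1 - 1 / (h : ℝ) else 1) = (Y A n ω)⁻¹ := by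
  unfold Y
  rw [← Finset.prod_inv_distrib]
  refine Finset.prod_congr rfl fun h hh => ?_
  have h2 : (2 : ℝ) ≤ h := by exact_mod_cast (Finset.mem_Icc.1 hh).1
  by_cases hA : ω ∈ A h
  · rw [if_pos hA, if_pos hA, inv_div]
    field_simp
  · rw [if_neg hA, if_neg hA, inv_one]

lemma log_ratio : Tendsto (fun n : ℕ => (Real.log ((n + 1 : ℕ) : ℝ))⁻¹ * Real.log n) atTop (𝓝 1) := by
  have h1 : Tendsto (fun n : ℕ => Real.log ((n : ℝ) + 1) - Real.log n) atTop (𝓝 0) := by
    have h1 : Tendsto (fun n : ℕ => 1 + (1 : ℝ) / n) atTop (𝓝 (1 + 0)) :=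
      tendsto_const_nhds.add tendsto_one_div_atTop_nhds_zero_nat
    rw [add_zero] at h1
    have h2 := (Real.continuousAt_log (one_ne_zero)).tendsto.comp h1
    rw [Real.log_one] at h2
    refine h2.congr' ?_
    filter_upwards [eventually_gt_atTop 0] with n hn
    have hn' : (0 : ℝ) < n := by exact_mod_cast hn
    show Real.log (1 + 1 / (n : ℝ)) = _
    rw [← Real.log_div (by positivity) hn'.ne']
    congr 1
    field_simp
  have h2 : Tendsto (fun n : ℕ => Real.log ((n : ℝ) + 1)) atTop atTop :=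
    Real.tendsto_log_atTop.comp (tendsto_atTop_add_const_right _ _ tendsto_natCast_atTop_atTop)
  have h3 := h1.div_atTop h2
  have h4 : Tendsto (fun n : ℕ => 1 - (Real.log ((n : ℝ) + 1) - Real.log n) / Real.log ((n : ℝ) + 1)) atTop (𝓝 (1 - 0)) :=
    tendsto_const_nhds.sub h3
  rw [sub_zero] at h4
  refine h4.congr' ?_
  filter_upwards [h2.eventually_gt_atTop 0] with n hn
  push_cast
  field_simp
  ring

end Pool.Agent.Results.MP_7ba156_nt.SequentialModels

open Pool.Agent.Results.MP_7ba156_nt.SequentialModels Pool.Agent.N740.HK Pool.Agent.R528.RM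
open Pool.Agent.N957.SQ

/-- The random sieve of Hawkins is a sequential model, the model of Cramér is one for some filtration.
In every sequential model, almost surely, infinitely many integers are chosen, and with
`p_0 < p_1 < ...` the chosen integers: for all real `0 ≤ lam ≤ 1` the number of `n` with `p_n ≤ x` and
`p_(n+1) - p_n > lam log² p_n` is `x ^ (1 - lam + o(1))`; for all `lam > 1` there are only finitely many
such `n`; the maximal gap `G(x)` is asymptotic to `log² x`; and for all `t ≥ 2` the gap after `p_n` is at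
most `2 (log p_n) ^ t` for all large `n`. -/
theorem Pool.Agent.Results.MP_7ba156_nt.SequentialModels.result
    {Ω : Type} [m : MeasurableSpace Ω] (μ : Measure Ω) [IsProbabilityMeasure μ] (A : ℕ → Set Ω) :
    (CramerModel μ A → ∃ ℱ : Filtration ℕ m, SequentialModel μ ℱ A) ∧
    ∀ ℱ : Filtration ℕ m,
    (HawkinsSieve μ ℱ A → SequentialModel μ ℱ A) ∧
    (SequentialModel μ ℱ A →
      ∀ᵐ ω ∂μ, {k | ω ∈ A k}.Infinite ∧
        (∀ lam : ℝ, 0 ≤ lam → lam ≤ 1 →
          Tendsto (fun x : ℕ => Real.log (largeGaps {k | ω ∈ A k} lam x) / Real.log x) atTop (𝓝 (1 - lam))) ∧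
        (∀ lam : ℝ, 1 < lam → {n : ℕ | lam * Real.log (nth {k | ω ∈ A k} n) ^ 2 <
          (nth {k | ω ∈ A k} (n + 1) : ℝ) - nth {k | ω ∈ A k} n}.Finite) ∧
        Tendsto (fun x : ℕ => (maxGap {k | ω ∈ A k} x : ℝ) / Real.log x ^ 2) atTop (𝓝 1) ∧
        ∀ t : ℝ, 2 ≤ t → ∀ᶠ n : ℕ in atTop, (nth {k | ω ∈ A k} (n + 1) : ℝ) - nth {k | ω ∈ A k} n ≤
          2 * Real.log (nth {k | ω ∈ A k} n) ^ t) := by
  classical
  refine ⟨?_, fun ℱ => ⟨?_, ?_⟩⟩
  · rintro ⟨hA, hi, hp⟩
    refine ⟨gen hA, gen_meas hA, ?_⟩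
    have h1 : ∀ᵐ ω ∂μ, ∀ n, (μ[(A (n + 1)).indicator (fun _ => (1 : ℝ)) | gen hA n]) ω =
        (μ (A (n + 1))).toReal := ae_all_iff.2 fun n => dens_gen hA hi n
    filter_upwards [h1] with ω hω
    refine log_ratio.congr' ?_
    filter_upwards [eventually_ge_atTop 2] with n hn
    rw [hω, hp (n + 1) (by omega), ENNReal.toReal_ofReal, one_div]
    have : 0 ≤ Real.log ((n + 1 : ℕ) : ℝ) := Real.log_natCast_nonneg _
    positivity
  · rintro ⟨h1, h2, h3⟩
    have hs : Pool.Agent.N740.HK.HS μ ℱ A := ⟨h1, h2, fun n hn => by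
      filter_upwards [h3 n hn] with ω hω
      rw [← prod_inv]
      exact hω⟩
    exact ⟨h1, Pool.Agent.N740.HK.hawk_dens hs⟩
  · rintro ⟨hA, hd⟩
    have hu : ∀ᵐ ω ∂μ, ∀ (q : ℚ) (k : ℕ), 0 < q → q ≤ 1 → ∃ K : ℝ, ∀ x : ℕ, 1 ≤ x → ∀ P : Finset ℕ,
        (∀ t ∈ P, t ≤ x ∧ cnt A t (wl q t) ω = 0) →
          (P.card : ℝ) ≤ K * (x : ℝ) ^ ((1 : ℝ) - q + 1 / ((k : ℝ) + 1)) := by
      refine ae_all_iff.2 fun q => ae_all_iff.2 fun k => ?_
      by_cases hq : 0 < q ∧ q ≤ 1
      · filter_upwards [upper (μ := μ) hA hd (lam := q) (ε := 1 / ((k : ℝ) + 1)) (by exact_mod_cast hq.1)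
          (by exact_mod_cast hq.2) (by positivity)] with ω hω _ _
        exact hω
      · exact Eventually.of_forall fun ω h1 h2 => absurd ⟨h1, h2⟩ hq
    have hl : ∀ᵐ ω ∂μ, ∀ (q b : ℚ), 0 < q → 0 < b → q + b < 1 → ∀ᶠ i : ℕ in atTop, ∃ P : Finset ℕ,
        P.card = ⌊Real.exp ((b : ℝ) * Real.log ((2 : ℝ) ^ i))⌋₊ ∧
          ∀ t ∈ P, 2 ^ i < t ∧ t ≤ 2 ^ (i + 1) ∧ ω ∈ A t ∧ cnt A t (wl q t) ω = 0 := by
      refine ae_all_iff.2 fun q => ae_all_iff.2 fun b => ?_
      by_cases hq : 0 < q ∧ 0 < b ∧ q + b < 1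
      · filter_upwards [lower (μ := μ) hA hd (lam := q) (β := b) (by exact_mod_cast hq.1)
          (by exact_mod_cast hq.2.1) (by exact_mod_cast hq.2.2)] with ω hω _ _ _
        exact hω
      · exact Eventually.of_forall fun ω h1 h2 h3 => absurd ⟨h1, h2, h3⟩ hq
    filter_upwards [hu, hl, cnt_law (μ := μ) hA hd, up_ae hA hd] with ω h1 h2 h3 h4
    have hS : {k | ω ∈ A k}.Infinite := inf_of_law h3
    have hyp : Hyp {k | ω ∈ A k} := by
      refine ⟨hS, fun q k hq0 hq1 => ?_, fun q b hq hb hqb => ?_, h4⟩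
      · obtain ⟨K, hK⟩ := h1 q k hq0 hq1
        refine ⟨K, fun x hx P hP => hK x hx P fun t ht => ⟨(hP t ht).1, ?_⟩⟩
        rw [cnt_zero]
        exact fun r hr1 hr2 hr => (hP t ht).2.2 r hr1 hr2 hr
      · filter_upwards [h2 q b hq hb hqb] with i hi
        obtain ⟨P, hP1, hP2⟩ := hi
        refine ⟨P, hP1, fun t ht => ?_⟩
        obtain ⟨t1, t2, t3, t4⟩ := hP2 t ht
        rw [cnt_zero] at t4
        exact ⟨t1, t2, t3, fun r hr1 hr2 hr => t4 r hr1 hr2 hr⟩
    refine ⟨hS, fun lam hl0 hl1 => law hyp hl0 hl1, fun lam hlam => ?_, max_law hyp, fun t ht => ?_⟩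
    · obtain ⟨n₀, hn₀⟩ := fin_large hyp hlam
      refine (Set.finite_Iio n₀).subset fun n hn => ?_
      by_contra hcon
      have h5 := hn₀ n (not_lt.1 hcon)
      exact absurd hn (not_lt.2 h5)
    · obtain ⟨n₀, hn₀⟩ := fin_large hyp (lam := 2) (by norm_num)
      have hlogp : Tendsto (fun n : ℕ => Real.log (pn {k | ω ∈ A k} n)) atTop atTop :=
        (Real.tendsto_log_atTop.comp tendsto_natCast_atTop_atTop).comp (tendsto_nth hS)
      filter_upwards [eventually_ge_atTop n₀, hlogp.eventually_ge_atTop 1] with n hn hn1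
      refine (hn₀ n hn).trans ?_
      apply mul_le_mul_of_nonneg_left _ (by norm_num)
      rw [← Real.rpow_two]
      exact Real.rpow_le_rpow_of_exponent_le hn1 ht
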