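import Pool.Agent.N534.PG.Alg

set_option autoImplicit false

/-!
# Record prime gaps around a number and around the values of several real polynomials, at the same time

Write `f(Z) = log Z (log₂ Z)² log₄ Z / (log₃ Z)²` (the size of the largest prime gaps known).

Let `P₁, …, P_r` be real polynomials with positive leading coefficients, of arbitrary degrees, such that no
nontrivial integer combination `h₁ P₁ + ⋯ + h_r P_r` has only rational coefficients in positive degree. Suppose that
EITHER all coefficients of positive degree lie in the ring generated by the real algebraic numbers and `e`, OR,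
for some `c, τ > 0`, the highest irrational coefficient of `h₁ P₁ + ⋯ + h_r P_r` has distance at least
`c H ^ (-τ)` from the integers, for all integer vectors `h` with entries at most `H`. Then there is `κ > 0` such that
for all large `Z` and all `M ≥ Z` some integer `n` in `(M, M + Z]` has no prime within `κ f(Z)` of any of the `r + 1`
numbers `n, P₁(n), …, P_r(n)`.

The starting files have this for one polynomial (`MP_711652_nt.IrrationalPolynomials`, `P(n)` only), for linear
polynomials (`MP_f9960f_nt.SeveralRealMultiples`) and for generalised polynomials with distinct non-integral leading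
exponents (`MP_ff81b6_nt.SeveralGeneralisedPolynomials`); the polynomials here may have equal degrees, and some of
them, but not all combinations, rational leading coefficients.

Proof (`Pool.Agent.N534.PG`). For a nonzero `h` let `i` be the highest degree in which `h₁ P₁ + ⋯ + h_r P_r` has an
irrational coefficient. The coefficients of higher degree have a denominator bounded independently of `h` (a
`ℚ`-linear projection of `ℝ` onto `ℚ`), so that their part is constant modulo one on residue classes; Weyl
differencing for the rest (`Pool.Agent.TH915.PW`) and the Diophantine condition give a power saving, uniformly in the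
short intervals; the joint covering sieve `Pool.Agent.Y961.JR` does the rest. The Diophantine condition for the ring
generated by the algebraic numbers and `e` follows from `Pool.Agent.TH629.ExpAlg` (a measure of linear independence).
-/

namespace Pool.Agent.Results.MP_7ba156_nt.SeveralRealPolynomials

open Finset

/-- the size of the largest known prime gaps below `Z` -/
noncomputable def f (Z : ℝ) : ℝ :=
  Real.log Z * (Real.log (Real.log Z)) ^ 2 * Real.log (Real.log (Real.log (Real.log Z))) /
    (Real.log (Real.log (Real.log Z))) ^ 2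

/-- no prime is at distance at most `d` from `x` -/
def PrimeFreeAround (x d : ℝ) : Prop := ∀ q : ℕ, q.Prime → d < |(q : ℝ) - x|

/-- no nontrivial integer combination of the polynomials has only rational coefficients in positive degree -/
def Independent {r : ℕ} (P : Fin r → Polynomial ℝ) : Prop :=
  ∀ h : Fin r → ℤ, h ≠ 0 → ∃ i, 1 ≤ i ∧ Irrational ((∑ j, h j • P j).coeff i)

/-- all coefficients of positive degree lie in the ring generated by the real algebraic numbers and `e` -/
def AlgebraicOrE {r : ℕ} (P : Fin r → Polynomial ℝ) : Prop :=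
  ∀ j i, 1 ≤ i → (P j).coeff i ∈ Algebra.adjoin ℚ ({x : ℝ | IsAlgebraic ℚ x} ∪ {Real.exp 1})

/-- for some `c, τ > 0`: if the entries of the integer vector `h` are at most `H`, then the irrational coefficient of
`h₁ P₁ + ⋯ + h_r P_r` of the highest degree (if there is one in positive degree) has distance at least `c H ^ (-τ)`
from the integers -/
def Diophantine {r : ℕ} (P : Fin r → Polynomial ℝ) : Prop :=
  ∃ c τ : ℝ, 0 < c ∧ 0 < τ ∧ ∀ (H : ℕ) (h : Fin r → ℤ), (∀ j, |h j| ≤ H) → ∀ i, 1 ≤ i →
    Irrational ((∑ j, h j • P j).coeff i) → (∀ l, i < l → ¬ Irrational ((∑ j, h j • P j).coeff l)) →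
    ∀ m : ℤ, c * (H : ℝ) ^ (-τ) ≤ |(∑ j, h j • P j).coeff i - m|

lemma coeff_comb {r : ℕ} (P : Fin r → Polynomial ℝ) (h : Fin r → ℤ) (i : ℕ) :
    (∑ j, h j • P j).coeff i = ∑ j, (h j : ℝ) * (P j).coeff i := by
  rw [Polynomial.finsetSum_coeff]
  apply Finset.sum_congr rfl
  intro j _
  rw [Polynomial.coeff_smul, zsmul_eq_mul]

theorem result (r : ℕ) (hr : 1 ≤ r) (P : Fin r → Polynomial ℝ) (hlc : ∀ j, 0 < (P j).leadingCoeff)
    (hind : Independent P) (hP : AlgebraicOrE P ∨ Diophantine P) :
    ∃ κ : ℝ, 0 < κ ∧ ∃ Z₀ : ℝ, ∀ Z : ℝ, Z₀ ≤ Z → ∀ M : ℝ, Z ≤ M →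
      ∃ n : ℕ, M < n ∧ (n : ℝ) ≤ M + Z ∧ PrimeFreeAround n (κ * f Z) ∧
        ∀ j, PrimeFreeAround ((P j).eval (n : ℝ)) (κ * f Z) := by
  have hind' : ∀ h : Fin r → ℤ, h ≠ 0 → ∃ i, 1 ≤ i ∧
      Irrational (∑ j, (h j : ℝ) * (P j).coeff i) := by
    intro h hh
    obtain ⟨i, hi, hirr⟩ := hind h hh
    exact ⟨i, hi, by rw [← coeff_comb]; exact hirr⟩
  rcases hP with hP | ⟨c, τ, hc, hτ, hd⟩
  · exact Pool.Agent.N534.PG.polys_alg r hr P hlc hP hind'
  · refine Pool.Agent.N534.PG.polys_main r hr P hlc hind' c τ hc ?_
    intro H h hH i hi hirr hl m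
    have hH' : ∀ j, |h j| ≤ (⌊H⌋₊ : ℤ) := by
      intro j
      have h3 : ((h j).natAbs : ℝ) ≤ H := by
        rw [Nat.cast_natAbs]
        push_cast
        exact hH j
      have h4 : (h j).natAbs ≤ ⌊H⌋₊ := Nat.le_floor h3
      rw [← Int.natCast_natAbs]
      exact_mod_cast h4
    have h1 := hd ⌊H⌋₊ h hH' i hi (by rw [coeff_comb]; exact hirr)
      (fun l hl' => by rw [coeff_comb]; exact hl l hl') m
    rw [coeff_comb] at h1
    refine le_trans (mul_le_mul_of_nonneg_left ?_ hc.le) h1
    have hj : ∃ j, h j ≠ 0 := by
      by_contra hcon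
      push Not at hcon
      apply hirr
      refine ⟨0, ?_⟩
      simp [hcon]
    obtain ⟨j, hj⟩ := hj
    have h5 : 1 ≤ ⌊H⌋₊ := by
      have := Int.one_le_abs hj
      have := hH' j
      omega
    have h6 : (0 : ℝ) < ⌊H⌋₊ := by exact_mod_cast h5
    have hH0 : 0 ≤ H := by
      by_contra hcon
      push Not at hcon
      have := hH j
      have := abs_nonneg (h j : ℝ)
      linarith
    exact Real.rpow_le_rpow_of_nonpos h6 (Nat.floor_le hH0) (by linarith)

end Pool.Agent.Results.MP_7ba156_nt.SeveralRealPolynomials
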