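import Mathlib
import Pool.Agent.N735.CL.Short

/-!
# The order of the longest waiting time for a prime, for almost all patterns in a short range

For a pattern `h = (h_1, ..., h_K)` of positive integers and for `m ≥ 1` the waiting time of `m` is the
least `i` such that `m + h_i` is a prime. For the pattern `1, 2, ..., K` the longest waiting time of the
`m ≤ X` is `G(X)`, the largest gap between consecutive primes, and the problem is whether
`G(X) = O(log^t X)` for every `t > 2`. We consider patterns with entries in a short range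
`{1, ..., H}`, where `H` is as small as `X^(1 - δ)`, so that for each `m` all the `m + h_i` are in a
short interval `(m, m + H]`. We prove unconditionally that for almost all of these patterns the longest
waiting time has the exact order `log² X`, and that above every `m ≤ X` the number of the primes has the
right order `K / log X`, as soon as `K ≥ A log² X`.

The lower bound for the number of primes in short intervals (Hoheisel's theorem, without the
asymptotics) and the upper bound sieve for prime pairs are from the starting files.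
-/

set_option autoImplicit false

namespace Pool.Agent.Results.MP_7ba156_nt.ShortRangePatterns

open Finset Filter Topology

/-- the patterns of length `K` with entries in `{1, ..., X}` -/
def patterns (X K : ℕ) : Finset (Fin K → ℕ) := Fintype.piFinset fun _ => Icc 1 X

open Classical in
/-- the proportion of the patterns of length `K` with entries in `{1, ..., X}` which have the
property `B` -/
noncomputable def proportion (X K : ℕ) (B : (Fin K → ℕ) → Prop) : ℝ :=
  (((patterns X K).filter B).card : ℝ) / (patterns X K).card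

/-- the waiting time of `m`: the least index (counted from `1`) such that `m + h_i` is a prime,
infinity if there is none -/
noncomputable def wait {K : ℕ} (h : Fin K → ℕ) (m : ℕ) : ℕ∞ :=
  ⨅ i : Fin K, if (m + h i).Prime then (((i : ℕ) + 1 : ℕ) : ℕ∞) else ⊤

/-- the longest waiting time of the `m ≤ X` -/
noncomputable def maxWait {K : ℕ} (X : ℕ) (h : Fin K → ℕ) : ℕ∞ := ⨆ m ∈ Icc 1 X, wait h m

/-- the largest gap between consecutive primes whose smaller member is at most `X` -/
noncomputable def G (X : ℕ) : ℕ :=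
  ((Icc 1 X).filter Nat.Prime).sup fun p => sInf {q : ℕ | q.Prime ∧ p < q} - p

/-! ## The interval pattern -/

lemma next_spec (p : ℕ) : (sInf {q : ℕ | q.Prime ∧ p < q}).Prime ∧ p < sInf {q : ℕ | q.Prime ∧ p < q} := by
  have h : {q : ℕ | q.Prime ∧ p < q}.Nonempty := by
    obtain ⟨q, hq, hqp⟩ := Nat.exists_infinite_primes (p + 1)
    exact ⟨q, hqp, by omega⟩
  exact Nat.sInf_mem h

lemma next_le {p q : ℕ} (hq : q.Prime) (hpq : p < q) : sInf {q : ℕ | q.Prime ∧ p < q} ≤ q :=
  Nat.sInf_le ⟨hq, hpq⟩

theorem interval (X K : ℕ) (hX : 2 ≤ X) (hK : X ≤ K) :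
    maxWait X (fun i : Fin K => (i : ℕ) + 1) = (G X : ℕ∞) := by
  apply le_antisymm
  · unfold maxWait
    apply iSup₂_le
    intro m hm
    rw [mem_Icc] at hm
    set q := sInf {q : ℕ | q.Prime ∧ m < q} with hq
    obtain ⟨h1, h2⟩ := next_spec m
    rw [← hq] at h1 h2
    have hle : q ≤ 2 * m := by
      obtain ⟨p, hp, hp1, hp2⟩ := Nat.exists_prime_lt_and_le_two_mul m (by omega)
      exact (next_le hp hp1).trans hp2
    have hi : q - m - 1 < K := by omega
    have hw : wait (fun i : Fin K => (i : ℕ) + 1) m ≤ ((q - m : ℕ) : ℕ∞) := by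
      unfold wait
      refine (iInf_le _ ⟨q - m - 1, hi⟩).trans ?_
      have e1 : m + (q - m - 1 + 1) = q := by omega
      have e2 : q - m - 1 + 1 = q - m := by omega
      simp only
      rw [e1, if_pos h1, e2]
    refine hw.trans ?_
    -- the largest prime at most `m`
    have hG : q - m ≤ G X := by
      rcases Nat.lt_or_ge m 2 with h3 | h3
      · have hm1 : m = 1 := by omega
        have hq2 : q ≤ 2 := by rw [hq, hm1]; exact next_le Nat.prime_two (by norm_num)
        have h4 : (fun p => sInf {q : ℕ | q.Prime ∧ p < q} - p) 2 ≤ G X :=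
          le_sup (f := fun p => sInf {q : ℕ | q.Prime ∧ p < q} - p) (mem_filter.2 ⟨mem_Icc.2 ⟨by norm_num, hX⟩, Nat.prime_two⟩)
        have h5 := (next_spec 2).2
        simp only at h4
        omega
      · have hne : ((Icc 1 m).filter Nat.Prime).Nonempty := ⟨2, mem_filter.2 ⟨mem_Icc.2 ⟨by norm_num, h3⟩, Nat.prime_two⟩⟩
        obtain ⟨p, hpm, hmax⟩ : ∃ p ∈ (Icc 1 m).filter Nat.Prime, ∀ x ∈ (Icc 1 m).filter Nat.Prime, x ≤ p :=
          ⟨_, max'_mem _ hne, fun x hx => le_max' _ x hx⟩
        rw [mem_filter, mem_Icc] at hpm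
        have h4 : (fun p => sInf {q : ℕ | q.Prime ∧ p < q} - p) p ≤ G X :=
          le_sup (f := fun p => sInf {q : ℕ | q.Prime ∧ p < q} - p) (mem_filter.2 ⟨mem_Icc.2 ⟨hpm.1.1, hpm.1.2.trans hm.2⟩, hpm.2⟩)
        simp only at h4
        have h5 : q ≤ sInf {q : ℕ | q.Prime ∧ p < q} := by
          obtain ⟨h6, h7⟩ := next_spec p
          apply next_le h6
          by_contra hc
          push Not at hc
          have h8 : sInf {q : ℕ | q.Prime ∧ p < q} ≤ p :=
            hmax _ (mem_filter.2 ⟨mem_Icc.2 ⟨h6.pos, hc⟩, h6⟩)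
          omega
        have h6 := hpm.1.2
        omega
    exact_mod_cast hG
  · obtain ⟨p, hp, hpG⟩ : ∃ p ∈ (Icc 1 X).filter Nat.Prime, G X = sInf {q : ℕ | q.Prime ∧ p < q} - p := by
      have hne : ((Icc 1 X).filter Nat.Prime).Nonempty := ⟨2, mem_filter.2 ⟨mem_Icc.2 ⟨by norm_num, hX⟩, Nat.prime_two⟩⟩
      obtain ⟨p, hp, he⟩ := exists_mem_eq_sup _ hne (fun p => sInf {q : ℕ | q.Prime ∧ p < q} - p)
      exact ⟨p, hp, he⟩
    rw [mem_filter] at hp
    unfold maxWait
    refine le_trans ?_ (le_iSup₂ (f := fun m (_ : m ∈ Icc 1 X) => wait (fun i : Fin K => (i : ℕ) + 1) m) p hp.1)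
    unfold wait
    apply le_iInf
    intro i
    split_ifs with h1
    · have h1' : (p + ((i : ℕ) + 1)).Prime := h1
      have h2 := next_le h1' (show p < p + ((i : ℕ) + 1) by omega)
      have h3 : G X ≤ (i : ℕ) + 1 := by rw [hpG]; omega
      exact_mod_cast h3
    · exact le_top

/-! ## The comparison with the auxiliary files -/

lemma prop_eq (X K : ℕ) (B : (Fin K → ℕ) → Prop) : proportion X K B = Pool.Agent.N735.CL.PK X K B := by
  classical
  rw [Pool.Agent.N735.CL.PK_eq]
  unfold proportion patterns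
  have h := Pool.Agent.N735.CL.card_Om X K
  unfold Pool.Agent.N735.CL.Om at h ⊢
  rw [h]
  push_cast
  rfl

/-- the number of the primes among the `m + h_i` -/
def cnt {K : ℕ} (h : Fin K → ℕ) (m : ℕ) : ℕ := (univ.filter fun i : Fin K => (m + h i).Prime).card

theorem result :
    -- the pattern of consecutive integers
    (∀ X K : ℕ, 2 ≤ X → X ≤ K → maxWait X (fun i : Fin K => (i : ℕ) + 1) = (G X : ℕ∞)) ∧
    -- almost all patterns in a short range
    (∃ δ c A : ℝ, 0 < δ ∧ δ < 1 ∧ 0 < c ∧ 0 < A ∧ ∀ θ : ℝ, 0 < θ → ∀ᶠ X : ℕ in atTop, ∀ H : ℕ,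
      (X : ℝ) ^ (1 - δ) ≤ H → H ≤ X → ∀ K : ℕ, A * Real.log X ^ 2 ≤ K →
        proportion H K (fun h => ¬ (
          (∀ m ∈ Icc 1 X, c * (K / Real.log X) ≤ (cnt h m : ℝ) ∧ (cnt h m : ℝ) ≤ A * (K / Real.log X)) ∧
          ∃ g : ℕ, maxWait X h = g ∧ c * Real.log X ^ 2 ≤ g ∧ (g : ℝ) ≤ A * Real.log X ^ 2)) ≤ θ) := by
  refine ⟨interval, ?_⟩
  obtain ⟨δ, c, A, h1, h2, h3, h4, h⟩ := Pool.Agent.N735.CL.short_law
  refine ⟨δ, c, A, h1, h2, h3, h4, fun θ hθ => ?_⟩
  filter_upwards [h θ hθ] with X hX H hH1 hH2 K hK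
  rw [prop_eq]
  exact hX H hH1 hH2 K hK

end Pool.Agent.Results.MP_7ba156_nt.ShortRangePatterns
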